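import Mathlib
import Pool.Agent.Helper45.MalcevDefs
import Pool.Agent.Helper45.MalcevMain

namespace Pool.Agent.Results.MP_62749c_al.ProductCoherent

open Pool.Agent.Helper45

universe u v

/-- The direct product of a virtually free group and a virtually nilpotent group is
Malcev coherent. -/
theorem result (F : Type u) (H : Type v) [Group F] [Group H]
    (hF : ∃ K : Subgroup F, K.FiniteIndex ∧ IsFreeGroup K)
    (hH : ∃ K : Subgroup H, K.FiniteIndex ∧ Group.IsNilpotent K) :
    MalcevCoherent (F × H) :=
  malcevCoherent_prod F H hF hH

end Pool.Agent.Results.MP_62749c_al.ProductCoherent
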